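import Pool.Agent.R972.OP.Stm

/-!
# OP-RS: Riemann sums over admissible placements (helper364, for project OP of helper972)
-/

set_option autoImplicit false

namespace Pool.Agent.R364.OP

open MeasureTheory Set Filter Topology
open Pool.Agent.R972.OP

variable {n : ℕ}

/-- floors -/
noncomputable def fl (N : ℕ) (x : Fin n → ℝ) : Fin n → ℕ := fun a => ⌊x a * N⌋₊

/-- cell of a lattice point -/
def cell (N : ℕ) (g : Fin n → ℕ) : Set (Fin n → ℝ) :=
  Set.pi univ fun a => Ico ((g a : ℝ) / N) (((g a : ℝ) + 1) / N)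

theorem mem_cell {N : ℕ} (hN : 0 < N) (g : Fin n → ℕ) (x : Fin n → ℝ) :
    x ∈ cell N g ↔ (∀ a, 0 ≤ x a) ∧ fl N x = g := by
  have hN' : (0 : ℝ) < N := by exact_mod_cast hN
  have key : ∀ a, x a ∈ Ico ((g a : ℝ) / N) (((g a : ℝ) + 1) / N) ↔
      0 ≤ x a ∧ ⌊x a * N⌋₊ = g a := by
    intro a
    constructor
    · rintro ⟨h1, h2⟩
      have h0 : 0 ≤ x a := le_trans (by positivity) h1
      refine ⟨h0, ?_⟩
      rw [Nat.floor_eq_iff (by positivity)]
      rw [div_le_iff₀ hN'] at h1
      rw [lt_div_iff₀ hN'] at h2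
      exact ⟨h1, h2⟩
    · rintro ⟨h0, h1⟩
      rw [Nat.floor_eq_iff (by positivity)] at h1
      refine ⟨?_, ?_⟩
      · rw [div_le_iff₀ hN']; exact h1.1
      · rw [lt_div_iff₀ hN']; exact h1.2
  constructor
  · intro h
    have h' : ∀ a, x a ∈ Ico ((g a : ℝ) / N) (((g a : ℝ) + 1) / N) := fun a => h a (mem_univ a)
    exact ⟨fun a => ((key a).1 (h' a)).1, funext fun a => ((key a).1 (h' a)).2⟩
  · rintro ⟨h0, h1⟩ a _
    exact (key a).2 ⟨h0 a, congrFun h1 a⟩

theorem measurableSet_cell (N : ℕ) (g : Fin n → ℕ) : MeasurableSet (cell N g) :=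
  MeasurableSet.univ_pi fun _ => measurableSet_Ico

theorem volume_cell {N : ℕ} (hN : 0 < N) (g : Fin n → ℕ) :
    (volume : Measure (Fin n → ℝ)).real (cell N g) = 1 / (N : ℝ) ^ n := by
  have hN' : (0 : ℝ) < N := by exact_mod_cast hN
  unfold cell
  rw [Measure.real, Real.volume_pi_Ico]
  have : ∀ a, (((g a : ℝ) + 1) / N) - ((g a : ℝ) / N) = 1 / N := by
    intro a; field_simp; ring
  simp only [this]
  rw [Finset.prod_const, Finset.card_univ, Fintype.card_fin, ENNReal.toReal_pow,
    ENNReal.toReal_ofReal (by positivity)]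
  rw [div_pow, one_pow]

open Classical in
/-- step function -/
noncomputable def hh (R : Fin n → Fin n → Prop) (G : (Fin n → ℝ) → ℝ) (N : ℕ)
    (x : Fin n → ℝ) : ℝ :=
  if (∀ a, 0 ≤ x a) ∧ fl N x ∈ cfg N R then G (lp N (fl N x)) else 0

theorem hh_eq (R : Fin n → Fin n → Prop) (G : (Fin n → ℝ) → ℝ) {N : ℕ} (hN : 0 < N)
    (x : Fin n → ℝ) :
    hh R G N x = ∑ g ∈ cfg N R, (cell N g).indicator (fun _ => G (lp N g)) x := by
  classical
  unfold hh
  by_cases h0 : ∀ a, 0 ≤ x a
  · have : ∀ g ∈ cfg N R, (cell N g).indicator (fun _ => G (lp N g)) x =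
        if fl N x = g then G (lp N g) else 0 := by
      intro g _
      by_cases h : fl N x = g
      · rw [if_pos h, indicator_of_mem ((mem_cell hN g x).2 ⟨h0, h⟩)]
      · rw [if_neg h, indicator_of_notMem]
        intro hx
        exact h ((mem_cell hN g x).1 hx).2
    rw [Finset.sum_congr rfl this, Finset.sum_ite_eq]
    by_cases h1 : fl N x ∈ cfg N R
    · rw [if_pos ⟨h0, h1⟩, if_pos h1]
    · rw [if_neg (fun h => h1 h.2), if_neg h1]
  · rw [if_neg (fun h => h0 h.1)]
    symm
    apply Finset.sum_eq_zero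
    intro g _
    rw [indicator_of_notMem]
    intro hx
    exact h0 ((mem_cell hN g x).1 hx).1

theorem integral_hh (R : Fin n → Fin n → Prop) (G : (Fin n → ℝ) → ℝ) {N : ℕ} (hN : 0 < N) :
    ∫ x, hh R G N x = (∑ g ∈ cfg N R, G (lp N g)) / (N : ℝ) ^ n := by
  have : ∀ x, hh R G N x = ∑ g ∈ cfg N R, (cell N g).indicator (fun _ => G (lp N g)) x :=
    hh_eq R G hN
  simp only [this]
  have hfin : ∀ g : Fin n → ℕ, volume (cell N g) ≠ ⊤ := by
    intro g
    unfold cell
    rw [Real.volume_pi_Ico]
    exact ENNReal.prod_ne_top fun a _ => ENNReal.ofReal_ne_top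
  rw [integral_finsetSum]
  · rw [Finset.sum_div]
    apply Finset.sum_congr rfl
    intro g _
    rw [integral_indicator_const _ (measurableSet_cell N g), volume_cell hN, smul_eq_mul]
    ring
  · intro g _
    rw [integrable_indicator_iff (measurableSet_cell N g)]
    exact integrableOn_const (hfin g)

theorem null_eq {a b : Fin n} (hab : a ≠ b) :
    (volume : Measure (Fin n → ℝ)) {x | x a = x b} = 0 := by
  have h := Measure.addHaar_submodule (volume : Measure (Fin n → ℝ))
    (LinearMap.ker (LinearMap.proj (R := ℝ) (φ := fun _ : Fin n => ℝ) a - LinearMap.proj b)) (by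
      intro h
      have h2 : (Pi.single a (1 : ℝ) : Fin n → ℝ) ∈ LinearMap.ker
        (LinearMap.proj (R := ℝ) (φ := fun _ : Fin n => ℝ) a - LinearMap.proj b) := by
        rw [h]; trivial
      rw [LinearMap.mem_ker] at h2
      simp [hab.symm] at h2)
  convert h using 2
  ext x
  simp [sub_eq_zero]

theorem null_const (a : Fin n) (c : ℝ) :
    (volume : Measure (Fin n → ℝ)) {x | x a = c} = 0 := by
  have := Measure.pi_hyperplane (fun _ : Fin n => (volume : Measure ℝ)) a c
  exact this

theorem ae_good : ∀ᵐ x : Fin n → ℝ, (∀ a b, a ≠ b → x a ≠ x b) ∧ (∀ a, x a ≠ 1) := by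
  have h1 : ∀ a b : Fin n, ∀ᵐ x : Fin n → ℝ, a ≠ b → x a ≠ x b := by
    intro a b
    by_cases hab : a = b
    · exact Eventually.of_forall fun x h => absurd hab h
    · have := null_eq (n := n) hab
      rw [ae_iff]
      refine measure_mono_null ?_ this
      intro x hx
      simp only [mem_ofPred_eq, Classical.not_imp, not_not] at hx
      exact hx.2
  have h2 : ∀ a : Fin n, ∀ᵐ x : Fin n → ℝ, x a ≠ 1 := by
    intro a
    rw [ae_iff]
    refine measure_mono_null ?_ (null_const (n := n) a 1)
    intro x hx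
    simpa using hx
  have h1' : ∀ᵐ x : Fin n → ℝ, ∀ a b, a ≠ b → x a ≠ x b := by
    rw [ae_all_iff]; intro a
    rw [ae_all_iff]; intro b
    exact h1 a b
  have h2' : ∀ᵐ x : Fin n → ℝ, ∀ a, x a ≠ 1 := by
    rw [ae_all_iff]; exact h2
  filter_upwards [h1', h2'] with x ha hb
  exact ⟨ha, hb⟩

theorem mem_cfg {N : ℕ} {R : Fin n → Fin n → Prop} {g : Fin n → ℕ} :
    g ∈ cfg N R ↔ (∀ a, g a < N) ∧ Function.Injective g ∧ ∀ a b, R a b → g a < g b := by
  classical
  unfold cfg
  rw [Finset.mem_filter, Fintype.mem_piFinset]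
  simp only [Finset.mem_range]

theorem fl_lt_of_lt {u v : ℝ} (hu : 0 ≤ u) (huv : u < v) :
    ∀ᶠ N : ℕ in atTop, ⌊u * N⌋₊ < ⌊v * N⌋₊ := by
  have hd : 0 < v - u := sub_pos.2 huv
  obtain ⟨m, hm⟩ := exists_nat_gt (1 / (v - u))
  filter_upwards [eventually_ge_atTop m] with N hN
  have h1 : 1 / (v - u) < N := lt_of_lt_of_le hm (by exact_mod_cast hN)
  have h2 : 1 < (v - u) * N := by
    rw [div_lt_iff₀ hd] at h1; linarith [mul_comm (N : ℝ) (v - u)]
  have h3 : u * N + 1 ≤ v * N := by linarith
  have h4 : ⌊u * N + 1⌋₊ = ⌊u * N⌋₊ + 1 := Nat.floor_add_one (by positivity)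
  have h5 : ⌊u * N + 1⌋₊ ≤ ⌊v * N⌋₊ := Nat.floor_mono h3
  omega

theorem lp_fl_tendsto {x : Fin n → ℝ} (h0 : ∀ a, 0 ≤ x a) :
    Tendsto (fun N : ℕ => lp N (fl N x)) atTop (𝓝 x) := by
  rw [tendsto_pi_nhds]
  intro a
  have := (tendsto_nat_floor_mul_div_atTop (R := ℝ) (h0 a)).comp tendsto_natCast_atTop_atTop
    (α := ℕ)
  exact this

theorem pointwise {R : Fin n → Fin n → Prop} (hR : ∀ a, ¬ R a a) {G : (Fin n → ℝ) → ℝ}
    (hG : Continuous G) {x : Fin n → ℝ} (hd : ∀ a b, a ≠ b → x a ≠ x b) (h1 : ∀ a, x a ≠ 1) :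
    Tendsto (fun N : ℕ => hh R G N x) atTop (𝓝 ((OPp R).indicator G x)) := by
  classical
  by_cases hx : x ∈ OPp R
  · rw [indicator_of_mem hx]
    obtain ⟨hc, hr⟩ := hx
    have h0 : ∀ a, 0 ≤ x a := fun a => (hc a).1
    have hev1 : ∀ᶠ N : ℕ in atTop, ∀ a b, x a < x b → fl N x a < fl N x b := by
      rw [eventually_all]; intro a
      rw [eventually_all]; intro b
      by_cases hab : x a < x b
      · filter_upwards [fl_lt_of_lt (h0 a) hab] with N hN _
        exact hN
      · exact Eventually.of_forall fun N h => absurd h hab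
    have hev : ∀ᶠ N : ℕ in atTop, G (lp N (fl N x)) = hh R G N x := by
      filter_upwards [hev1, eventually_gt_atTop 0] with N hN hN0
      have hN' : (0 : ℝ) < N := by exact_mod_cast hN0
      unfold hh
      rw [if_pos]
      refine ⟨h0, mem_cfg.2 ⟨?_, ?_, ?_⟩⟩
      · intro a
        unfold fl
        rw [Nat.floor_lt (mul_nonneg (h0 a) hN'.le)]
        have : x a < 1 := lt_of_le_of_ne (hc a).2 (h1 a)
        nlinarith
      · intro a b hab
        by_contra hne
        rcases lt_or_gt_of_ne (hd a b hne) with h | h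
        · exact absurd hab (ne_of_lt (hN a b h))
        · exact absurd hab (ne_of_gt (hN b a h))
      · intro a b hab
        have hne : a ≠ b := by rintro rfl; exact hR a hab
        exact hN a b (lt_of_le_of_ne (hr a b hab) (hd a b hne))
    refine Tendsto.congr' hev ?_
    exact (hG.tendsto x).comp (lp_fl_tendsto h0)
  · rw [indicator_of_notMem hx]
    have hev : ∀ᶠ N : ℕ in atTop, (0 : ℝ) = hh R G N x := by
      filter_upwards [eventually_gt_atTop 0] with N hN0
      have hN' : (0 : ℝ) < N := by exact_mod_cast hN0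
      unfold hh
      rw [if_neg]
      rintro ⟨h0, hcf⟩
      apply hx
      obtain ⟨hlt, hinj, hr⟩ := mem_cfg.1 hcf
      refine ⟨fun a => ⟨h0 a, ?_⟩, fun a b hab => ?_⟩
      · have := hlt a
        unfold fl at this
        rw [Nat.floor_lt (mul_nonneg (h0 a) hN'.le)] at this
        by_contra hcon
        push Not at hcon
        nlinarith
      · have h2 := hr a b hab
        by_contra hcon
        push Not at hcon
        have h3 : x b * N ≤ x a * N := by nlinarith
        have h4 : fl N x b ≤ fl N x a := Nat.floor_mono h3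
        omega
    exact Tendsto.congr' hev tendsto_const_nhds

theorem measurableSet_OPp (R : Fin n → Fin n → Prop) : MeasurableSet (OPp R) := by
  have : IsClosed (OPp R) := by
    have h1 : OPp R = (⋂ i, ({x : Fin n → ℝ | 0 ≤ x i} ∩ {x : Fin n → ℝ | x i ≤ 1})) ∩
        ⋂ i, ⋂ j, ⋂ (_ : R i j), {x : Fin n → ℝ | x i ≤ x j} := by
      ext x
      simp [OPp]
    rw [h1]
    refine IsClosed.inter (isClosed_iInter fun i => IsClosed.inter ?_ ?_)
      (isClosed_iInter fun i => isClosed_iInter fun j => isClosed_iInter fun _ => ?_)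
    · exact isClosed_le continuous_const (continuous_apply i)
    · exact isClosed_le (continuous_apply i) continuous_const
    · exact isClosed_le (continuous_apply i) (continuous_apply j)
  exact this.measurableSet

theorem rs : S_RS := by
  classical
  intro n R hR G hG
  -- bound of G on the cube
  have hK : IsCompact (Icc (0 : Fin n → ℝ) 1) := isCompact_Icc
  obtain ⟨M, hM⟩ := hK.exists_bound_of_continuousOn hG.continuousOn
  have hM0 : 0 ≤ M := le_trans (norm_nonneg _) (hM 0 ⟨le_refl _, zero_le_one⟩)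
  have hlim : Tendsto (fun N : ℕ => ∫ x, hh R G N x) atTop (𝓝 (∫ x, (OPp R).indicator G x)) := by
    refine tendsto_integral_filter_of_dominated_convergence
      ((Icc (0 : Fin n → ℝ) 1).indicator fun _ => M) ?_ ?_ ?_ ?_
    · filter_upwards [eventually_gt_atTop 0] with N hN
      have : hh R G N = fun x =>
          ∑ g ∈ cfg N R, (cell N g).indicator (fun _ => G (lp N g)) x :=
        funext (hh_eq R G hN)
      rw [this]
      apply Measurable.aestronglyMeasurable
      exact Finset.measurable_sum _ fun g _ =>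
        measurable_const.indicator (measurableSet_cell N g)
    · filter_upwards [eventually_gt_atTop 0] with N hN
      have hN' : (0 : ℝ) < N := by exact_mod_cast hN
      refine Eventually.of_forall fun x => ?_
      unfold hh
      by_cases h : (∀ a, 0 ≤ x a) ∧ fl N x ∈ cfg N R
      · rw [if_pos h]
        obtain ⟨h0, hcf⟩ := h
        have hlt := (mem_cfg.1 hcf).1
        have hxm : x ∈ Icc (0 : Fin n → ℝ) 1 := by
          refine ⟨fun a => h0 a, fun a => ?_⟩
          have := hlt a
          unfold fl at this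
          rw [Nat.floor_lt (mul_nonneg (h0 a) hN'.le)] at this
          by_contra hcon
          push Not at hcon
          have h2 : (1 : ℝ) < x a := hcon
          nlinarith
        rw [indicator_of_mem hxm]
        apply hM
        refine ⟨fun a => ?_, fun a => ?_⟩
        · show (0 : ℝ) ≤ (fl N x a : ℝ) / N
          positivity
        · show (fl N x a : ℝ) / N ≤ 1
          rw [div_le_one hN']
          exact_mod_cast (hlt a).le
      · rw [if_neg h, norm_zero]
        exact indicator_nonneg (fun _ _ => hM0) x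
    · rw [integrable_indicator_iff measurableSet_Icc]
      exact integrableOn_const hK.measure_lt_top.ne
    · filter_upwards [ae_good (n := n)] with x hx
      exact pointwise hR hG hx.1 hx.2
  rw [integral_indicator (measurableSet_OPp R)] at hlim
  refine Tendsto.congr' ?_ hlim
  filter_upwards [eventually_gt_atTop 0] with N hN
  exact integral_hh R G hN

end Pool.Agent.R364.OP
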