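import Pool.Agent.R972.OP.Stm

/-!
# OP-UPA: asymptotics of the three sums (helper364, for project OP of helper972)
-/

set_option autoImplicit false

namespace Pool.Agent.R364.OP

open MeasureTheory Set Filter Topology
open Pool.Agent.R972.OP

theorem exists_err {α : Type} (S : ℕ → Set α) (φ : ℕ → α → ℝ) (hfin : ∀ N, (S N).Finite)
    (h : ∀ ε > 0, ∀ᶠ N in atTop, ∀ g ∈ S N, φ N g ≤ ε) :
    ∃ err : ℕ → ℝ, Tendsto err atTop (𝓝 0) ∧ ∀ N, ∀ g ∈ S N, φ N g ≤ err N := by
  refine ⟨fun N => sSup (insert 0 (φ N '' S N)), ?_, ?_⟩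
  · rw [Metric.tendsto_atTop']
    intro ε hε
    have := h (ε / 2) (by linarith)
    rw [eventually_atTop] at this
    obtain ⟨N0, hN0⟩ := this
    refine ⟨N0, fun N hN => ?_⟩
    have h1 : (0 : ℝ) ≤ sSup (insert 0 (φ N '' S N)) :=
      le_csSup (((hfin N).image _).insert 0).bddAbove (mem_insert _ _)
    have h2 : sSup (insert 0 (φ N '' S N)) ≤ ε / 2 := by
      apply csSup_le (insert_nonempty _ _)
      rintro y (rfl | ⟨g, hg, rfl⟩)
      · linarith
      · exact hN0 N hN.le g hg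
    rw [Real.dist_eq, sub_zero, abs_of_nonneg h1]
    linarith
  · intro N g hg
    exact le_csSup (((hfin N).image _).insert 0).bddAbove (mem_insert_of_mem _ ⟨g, hg, rfl⟩)

variable {n : ℕ}

/-- the cube -/
def cube (n : ℕ) : Set (Fin n → ℝ) := Icc 0 1

theorem taylor {f : (Fin n → ℝ) → ℝ} (hf : ContDiff ℝ 1 f) {x y : Fin n → ℝ} {h η : ℝ}
    (hx : x ∈ cube n) (hy : y ∈ cube n) (hxy : ‖y - x‖ ≤ h)
    (hη : ∀ z ∈ cube n, ‖z - x‖ ≤ h → ‖fderiv ℝ f z - fderiv ℝ f x‖ ≤ η) :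
    |f y - f x - fderiv ℝ f x (y - x)| ≤ η * ‖y - x‖ := by
  have hc : Convex ℝ (cube n ∩ Metric.closedBall x h) :=
    (convex_Icc 0 1).inter (convex_closedBall x h)
  have hh : 0 ≤ h := le_trans (norm_nonneg _) hxy
  have := Convex.norm_image_sub_le_of_norm_fderiv_le' (𝕜 := ℝ) (f := f)
    (s := cube n ∩ Metric.closedBall x h) (C := η) (φ := fderiv ℝ f x) (x := x) (y := y)
    (fun z _ => (hf.differentiable one_ne_zero) z)
    (fun z hz => hη z hz.1 (by rw [← dist_eq_norm]; exact hz.2)) hc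
    ⟨hx, Metric.mem_closedBall_self hh⟩ ⟨hy, by rw [Metric.mem_closedBall, dist_eq_norm]; exact hxy⟩
  rwa [Real.norm_eq_abs] at this

theorem lp_mem {N : ℕ} (hN : 0 < N) {g : Fin n → ℕ} (hg : ∀ a, g a < N) : lp N g ∈ cube n := by
  have hN' : (0 : ℝ) < N := by exact_mod_cast hN
  refine ⟨fun a => ?_, fun a => ?_⟩
  · show (0 : ℝ) ≤ (g a : ℝ) / N
    positivity
  · show (g a : ℝ) / N ≤ 1
    rw [div_le_one hN']
    exact_mod_cast (hg a).le

/-- scalar estimate, move up -/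
theorem scal_up {x h B η D r : ℝ} (hx0 : 0 ≤ x) (hh0 : 0 ≤ h)
    (hxh : x + h ≤ 1) (hη0 : 0 ≤ η) (hη1 : η ≤ 1) (hD : |D| ≤ B) (hr : |r| ≤ η) :
    1 / 2 * ((x + h) * (1 - x - h)) * (D + r) ^ 2 ≤
      1 / 2 * (x * (1 - x)) * D ^ 2 + (1 / 2 * h * B ^ 2 + (2 * B + 1) * η) := by
  have hB : 0 ≤ B := le_trans (abs_nonneg _) hD
  have h1 : (D + r) ^ 2 ≤ D ^ 2 + (2 * B + 1) * η := by
    have e1 : D * r ≤ B * η := by
      calc D * r ≤ |D * r| := le_abs_self _
        _ = |D| * |r| := abs_mul _ _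
        _ ≤ B * η := mul_le_mul hD hr (abs_nonneg _) hB
    have e2 : r ^ 2 ≤ η := by
      have : r ^ 2 ≤ η ^ 2 := by
        rw [← sq_abs r]; exact pow_le_pow_left₀ (abs_nonneg _) hr 2
      nlinarith
    nlinarith
  have h2 : (x + h) * (1 - x - h) ≤ x * (1 - x) + h := by nlinarith
  have h3 : 0 ≤ (x + h) * (1 - x - h) := mul_nonneg (by linarith) (by linarith)
  have h4 : D ^ 2 ≤ B ^ 2 := by
    rw [← sq_abs D]; exact pow_le_pow_left₀ (abs_nonneg _) hD 2
  have h5 : (x + h) * (1 - x - h) ≤ 1 := by nlinarith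
  have h6 : 0 ≤ (2 * B + 1) * η := by positivity
  calc 1 / 2 * ((x + h) * (1 - x - h)) * (D + r) ^ 2
      ≤ 1 / 2 * ((x + h) * (1 - x - h)) * (D ^ 2 + (2 * B + 1) * η) :=
        mul_le_mul_of_nonneg_left h1 (by positivity)
    _ = 1 / 2 * ((x + h) * (1 - x - h)) * D ^ 2 +
        1 / 2 * ((x + h) * (1 - x - h)) * ((2 * B + 1) * η) := by ring
    _ ≤ 1 / 2 * (x * (1 - x) + h) * D ^ 2 + 1 / 2 * 1 * ((2 * B + 1) * η) := by
        apply add_le_add
        · apply mul_le_mul_of_nonneg_right _ (sq_nonneg _)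
          linarith
        · apply mul_le_mul_of_nonneg_right _ h6
          linarith
    _ ≤ 1 / 2 * (x * (1 - x)) * D ^ 2 + (1 / 2 * h * B ^ 2 + (2 * B + 1) * η) := by
        have : h * D ^ 2 ≤ h * B ^ 2 := mul_le_mul_of_nonneg_left h4 hh0
        nlinarith

theorem pd_abs_le {f : (Fin n → ℝ) → ℝ} {B : ℝ} {x : Fin n → ℝ} (hB : ‖fderiv ℝ f x‖ ≤ B)
    (a : Fin n) : |pd f a x| ≤ B := by
  unfold pd
  rw [← Real.norm_eq_abs]
  calc ‖fderiv ℝ f x (Pi.single a 1)‖ ≤ ‖fderiv ℝ f x‖ * ‖(Pi.single a 1 : Fin n → ℝ)‖ :=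
        ContinuousLinearMap.le_opNorm _ _
    _ = ‖fderiv ℝ f x‖ := by
        rw [Pi.norm_single, norm_one, mul_one]
    _ ≤ B := hB

theorem lp_update_sub {N : ℕ} (g : Fin n → ℕ) (a : Fin n) (v : ℕ) :
    lp N (Function.update g a v) - lp N g =
      (((v : ℝ) - g a) / N) • (Pi.single a 1 : Fin n → ℝ) := by
  ext c
  by_cases h : c = a
  · subst h
    simp [Pool.Agent.R972.OP.lp]
    ring
  · simp [Pool.Agent.R972.OP.lp, h]

/-- one coordinate, move by one step `s = ±1` -/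
theorem step {f : (Fin n → ℝ) → ℝ} (hf : ContDiff ℝ 1 f) {N : ℕ} (hN : 0 < N)
    {g : Fin n → ℕ} (hg : ∀ a, g a < N) {η : ℝ}
    (hη : ∀ x ∈ cube n, ∀ z ∈ cube n, ‖z - x‖ ≤ 1 / N → ‖fderiv ℝ f z - fderiv ℝ f x‖ ≤ η)
    (a : Fin n) (v : ℕ) (hv : v < N) (s : ℝ) (hs : |s| = 1) (hvs : (v : ℝ) - g a = s) :
    ∃ r : ℝ, |r| ≤ η ∧ f (lp N (Function.update g a v)) - f (lp N g) =
      1 / N * (s * (pd f a (lp N g) + r)) := by
  have hN' : (0 : ℝ) < N := by exact_mod_cast hN
  have hx := lp_mem hN hg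
  have hg' : ∀ b, Function.update g a v b < N := by
    intro b
    by_cases hb : b = a
    · subst hb; simpa using hv
    · rw [Function.update_of_ne hb]; exact hg b
  have hy := lp_mem hN hg'
  have hsub := lp_update_sub (N := N) g a v
  rw [hvs] at hsub
  have hnorm : ‖lp N (Function.update g a v) - lp N g‖ = 1 / N := by
    rw [hsub, norm_smul, Pi.norm_single, norm_one, mul_one, norm_div, Real.norm_eq_abs, hs,
      Real.norm_eq_abs, abs_of_pos hN']
  have ht := taylor hf hx hy hnorm.le (hη _ hx)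
  rw [hnorm] at ht
  rw [hsub, map_smul, smul_eq_mul] at ht
  have hss : s * s = 1 := by
    rw [← sq, ← sq_abs, hs, one_pow]
  refine ⟨s * N * (f (lp N (Function.update g a v)) - f (lp N g)) - pd f a (lp N g), ?_, ?_⟩
  · have e : s * N * (f (lp N (Function.update g a v)) - f (lp N g)) - pd f a (lp N g) =
        s * N * (f (lp N (Function.update g a v)) - f (lp N g) -
          s / N * fderiv ℝ f (lp N g) (Pi.single a 1)) := by
      unfold pd
      have : s * N * (s / N * fderiv ℝ f (lp N g) (Pi.single a 1)) =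
          fderiv ℝ f (lp N g) (Pi.single a 1) := by
        field_simp
        rw [sq, hss, one_mul]
      linear_combination this
    rw [e, abs_mul, abs_mul, hs, one_mul, abs_of_pos hN']
    calc (N : ℝ) * |f (lp N (Function.update g a v)) - f (lp N g) -
          s / N * fderiv ℝ f (lp N g) (Pi.single a 1)|
        ≤ N * (η * (1 / N)) := mul_le_mul_of_nonneg_left ht hN'.le
      _ = η := by field_simp
  · have e : s * (pd f a (lp N g) + (s * N * (f (lp N (Function.update g a v)) - f (lp N g)) -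
        pd f a (lp N g))) = N * (f (lp N (Function.update g a v)) - f (lp N g)) := by
      linear_combination (N * (f (lp N (Function.update g a v)) - f (lp N g))) * hss
    rw [e]
    field_simp

theorem upa_ev {f : (Fin n → ℝ) → ℝ} (hf : ContDiff ℝ 1 f) {B : ℝ}
    (hB : ∀ x ∈ cube n, ‖fderiv ℝ f x‖ ≤ B) {N : ℕ} (hN : 0 < N)
    {g : Fin n → ℕ} (hg : ∀ a, g a < N) {η : ℝ} (hη1 : η ≤ 1)
    (hη : ∀ x ∈ cube n, ∀ z ∈ cube n, ‖z - x‖ ≤ 1 / N → ‖fderiv ℝ f z - fderiv ℝ f x‖ ≤ η) :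
    ∑ a, (if g a + 1 < N then
      cc N (g a) * (f (lp N (Function.update g a (g a + 1))) - f (lp N g)) ^ 2 else 0) +
    ∑ a, (if 0 < g a then
      cc N (g a - 1) * (f (lp N (Function.update g a (g a - 1))) - f (lp N g)) ^ 2 else 0) ≤
    GG f (lp N g) + (n : ℝ) * (1 / N * B ^ 2 + 2 * ((2 * B + 1) * η)) := by
  have hN' : (0 : ℝ) < N := by exact_mod_cast hN
  have hx := lp_mem hN hg
  have hη0 : 0 ≤ η := by
    have := hη _ hx _ hx (by simp)
    simpa using this
  have hBx := hB _ hx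
  have hB0 : 0 ≤ B := le_trans (norm_nonneg _) hBx
  have hN1 : (1 : ℝ) ≤ N := by exact_mod_cast hN
  have hinv : (1 : ℝ) / N ≤ 1 := by rw [div_le_one hN']; exact hN1
  have hinv0 : (0 : ℝ) ≤ 1 / N := by positivity
  have hrest : 0 ≤ 1 / 2 * (1 / N) * B ^ 2 + (2 * B + 1) * η := by positivity
  rw [← Finset.sum_add_distrib]
  unfold GG
  have hn : (n : ℝ) * (1 / N * B ^ 2 + 2 * ((2 * B + 1) * η)) =
      ∑ _a : Fin n, (1 / N * B ^ 2 + 2 * ((2 * B + 1) * η)) := by
    rw [Finset.sum_const, Finset.card_univ, Fintype.card_fin, nsmul_eq_mul]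
  rw [hn, ← Finset.sum_add_distrib]
  apply Finset.sum_le_sum
  intro a _
  have hxa0 : 0 ≤ lp N g a := hx.1 a
  have hxa1 : lp N g a ≤ 1 := hx.2 a
  have hD := pd_abs_le hBx a
  have hbase : 0 ≤ 1 / 2 * (lp N g a * (1 - lp N g a)) * pd f a (lp N g) ^ 2 := by
    have : 0 ≤ lp N g a * (1 - lp N g a) := mul_nonneg hxa0 (by linarith)
    positivity
  have hlp : lp N g a = (g a : ℝ) / N := rfl
  have t1 : (if g a + 1 < N then
      cc N (g a) * (f (lp N (Function.update g a (g a + 1))) - f (lp N g)) ^ 2 else 0) ≤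
      1 / 2 * (lp N g a * (1 - lp N g a)) * pd f a (lp N g) ^ 2 +
        (1 / 2 * (1 / N) * B ^ 2 + (2 * B + 1) * η) := by
    split_ifs with h
    · obtain ⟨r, hr, he⟩ := step hf hN hg hη a (g a + 1) h 1 (by norm_num) (by push_cast; ring)
      rw [he]
      have hxh : lp N g a + 1 / N ≤ 1 := by
        rw [hlp, ← add_div, div_le_one hN']
        exact_mod_cast h.le
      have := scal_up hxa0 hinv0 hxh hη0 hη1 hD hr
      refine le_trans (le_of_eq ?_) this
      rw [hlp]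
      unfold cc
      field_simp
      ring
    · linarith
  have t2 : (if 0 < g a then
      cc N (g a - 1) * (f (lp N (Function.update g a (g a - 1))) - f (lp N g)) ^ 2 else 0) ≤
      1 / 2 * (lp N g a * (1 - lp N g a)) * pd f a (lp N g) ^ 2 +
        (1 / 2 * (1 / N) * B ^ 2 + (2 * B + 1) * η) := by
    split_ifs with h
    · have hcast : ((g a - 1 : ℕ) : ℝ) = (g a : ℝ) - 1 := by
        rw [Nat.cast_sub h]; simp
      obtain ⟨r, hr, he⟩ := step hf hN hg hη a (g a - 1) (lt_of_le_of_lt (Nat.sub_le _ _) (hg a))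
        (-1) (by norm_num) (by rw [hcast]; ring)
      rw [he]
      have := scal_up (x := lp N g a) (h := 0) hxa0 le_rfl (by linarith) hη0 hη1
        hD hr
      have e : cc N (g a - 1) * (1 / (N : ℝ) * (-1 * (pd f a (lp N g) + r))) ^ 2 =
          1 / 2 * ((lp N g a + 0) * (1 - lp N g a - 0)) * (pd f a (lp N g) + r) ^ 2 := by
        rw [hlp]
        unfold cc
        rw [hcast]
        field_simp
        ring
      rw [e]
      have h3 : (0 : ℝ) ≤ 1 / 2 * (1 / N) * B ^ 2 := by positivity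
      linarith
    · linarith
  have := add_le_add t1 t2
  refine le_trans this (le_of_eq ?_)
  ring

theorem upa_c {f : (Fin n → ℝ) → ℝ} (hf : ContDiff ℝ 1 f) {B : ℝ}
    (hB : ∀ x ∈ cube n, ‖fderiv ℝ f x‖ ≤ B) {N : ℕ} (hN : 0 < N)
    {g : Fin n → ℕ} (hg : ∀ a, g a < N) (a b : Fin n) (hab : g b = g a + 1) :
    cc N (g a) * (f (lp N (mv (g a) (g a + 1) g)) - f (lp N g)) ^ 2 ≤ B ^ 2 := by
  have hN' : (0 : ℝ) < N := by exact_mod_cast hN
  have hx := lp_mem hN hg
  have hB0 : 0 ≤ B := le_trans (norm_nonneg _) (hB _ hx)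
  have hb := hg b
  have hg' : ∀ c, mv (g a) (g a + 1) g c < N := by
    intro c
    unfold mv
    rw [Equiv.swap_apply_def]
    have hc := hg c
    have ha := hg a
    split_ifs <;> omega
  have hy := lp_mem hN hg'
  have hnorm : ‖lp N (mv (g a) (g a + 1) g) - lp N g‖ ≤ 1 / N := by
    rw [pi_norm_le_iff_of_nonneg (by positivity)]
    intro c
    show ‖((mv (g a) (g a + 1) g c : ℕ) : ℝ) / N - (g c : ℝ) / N‖ ≤ 1 / N
    rw [← sub_div, norm_div, Real.norm_eq_abs, Real.norm_eq_abs, abs_of_pos hN']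
    apply div_le_div_of_nonneg_right _ hN'.le
    unfold mv
    rw [Equiv.swap_apply_def]
    split_ifs with h1 h2
    · rw [h1]; push_cast; simp
    · rw [h2]; push_cast; simp
    · simp
  have hdiff : |f (lp N (mv (g a) (g a + 1) g)) - f (lp N g)| ≤ B * (1 / N) := by
    have := Convex.norm_image_sub_le_of_norm_fderiv_le (𝕜 := ℝ) (f := f)
      (s := cube n) (C := B) (x := lp N g) (y := lp N (mv (g a) (g a + 1) g))
      (fun z _ => (hf.differentiable one_ne_zero) z) hB (convex_Icc 0 1) hx hy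
    rw [Real.norm_eq_abs] at this
    exact this.trans (mul_le_mul_of_nonneg_left hnorm hB0)
  have hsq : (f (lp N (mv (g a) (g a + 1) g)) - f (lp N g)) ^ 2 ≤ (B * (1 / N)) ^ 2 := by
    rw [← sq_abs (f (lp N (mv (g a) (g a + 1) g)) - f (lp N g))]
    exact pow_le_pow_left₀ (abs_nonneg _) hdiff 2
  have hc1 : cc N (g a) ≤ (N : ℝ) ^ 2 := by
    unfold cc
    have h1 : ((g a : ℝ) + 1) ≤ N := by
      have : g a + 1 ≤ N := by omega
      exact_mod_cast this
    have h2 : ((N : ℝ) - 1 - g a) ≤ N := by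
      have : (0 : ℝ) ≤ g a := by positivity
      linarith
    have h3 : (0 : ℝ) ≤ (N : ℝ) - 1 - g a := by linarith
    have h4 : (0 : ℝ) ≤ (g a : ℝ) + 1 := by positivity
    have h5 : ((g a : ℝ) + 1) * ((N : ℝ) - 1 - g a) ≤ N * N :=
      mul_le_mul h1 h2 h3 hN'.le
    nlinarith
  calc cc N (g a) * (f (lp N (mv (g a) (g a + 1) g)) - f (lp N g)) ^ 2
      ≤ (N : ℝ) ^ 2 * (f (lp N (mv (g a) (g a + 1) g)) - f (lp N g)) ^ 2 :=
        mul_le_mul_of_nonneg_right hc1 (sq_nonneg _)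
    _ ≤ (N : ℝ) ^ 2 * (B * (1 / N)) ^ 2 := mul_le_mul_of_nonneg_left hsq (by positivity)
    _ = B ^ 2 := by field_simp

theorem upa : S_UPA := by
  intro n f hf
  have hK : IsCompact (cube n) := isCompact_Icc
  have hcont : Continuous (fderiv ℝ f) := hf.continuous_fderiv one_ne_zero
  obtain ⟨B, hB⟩ := hK.exists_bound_of_continuousOn hcont.continuousOn
  have h0mem : (0 : Fin n → ℝ) ∈ cube n := ⟨le_refl _, zero_le_one⟩
  have hB0 : 0 ≤ B := le_trans (norm_nonneg _) (hB 0 h0mem)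
  obtain ⟨err, herr, herr2⟩ := exists_err (α := Fin n → ℕ)
    (fun N => {g | 0 < N ∧ ∀ a, g a < N})
    (fun N g => ∑ a, (if g a + 1 < N then
      cc N (g a) * (f (lp N (Function.update g a (g a + 1))) - f (lp N g)) ^ 2 else 0) +
    ∑ a, (if 0 < g a then
      cc N (g a - 1) * (f (lp N (Function.update g a (g a - 1))) - f (lp N g)) ^ 2 else 0) -
    GG f (lp N g)) (by
      intro N
      refine Set.Finite.subset (Set.Finite.pi' (fun _ : Fin n => Set.finite_Iio N)) ?_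
      rintro g ⟨_, hg⟩ a
      exact hg a) (by
      intro ε hε
      -- choose η
      obtain ⟨η, hη0, hη1, hηε⟩ : ∃ η : ℝ, 0 < η ∧ η ≤ 1 ∧
          (n : ℝ) * (2 * ((2 * B + 1) * η)) ≤ ε / 2 := by
        have hpos : (0 : ℝ) < (n : ℝ) * (2 * (2 * B + 1)) + 1 := by positivity
        refine ⟨min 1 (ε / 2 / ((n : ℝ) * (2 * (2 * B + 1)) + 1)), ?_, min_le_left _ _, ?_⟩
        · apply lt_min one_pos
          positivity
        · set q := (n : ℝ) * (2 * (2 * B + 1)) with hq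
          have hq0 : 0 ≤ q := by positivity
          have h1 : min 1 (ε / 2 / (q + 1)) ≤ ε / 2 / (q + 1) := min_le_right _ _
          calc (n : ℝ) * (2 * ((2 * B + 1) * min 1 (ε / 2 / (q + 1))))
              = q * min 1 (ε / 2 / (q + 1)) := by rw [hq]; ring
            _ ≤ q * (ε / 2 / (q + 1)) := mul_le_mul_of_nonneg_left h1 hq0
            _ ≤ (q + 1) * (ε / 2 / (q + 1)) :=
                mul_le_mul_of_nonneg_right (by linarith) (by positivity)
            _ = ε / 2 := by field_simp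
      have huc : UniformContinuousOn (fderiv ℝ f) (cube n) :=
        hK.uniformContinuousOn_of_continuous hcont.continuousOn
      rw [Metric.uniformContinuousOn_iff] at huc
      obtain ⟨δ, hδ, huc⟩ := huc η hη0
      have e1 : Tendsto (fun N : ℕ => (n : ℝ) * (1 / (N : ℝ) * B ^ 2)) atTop (𝓝 0) := by
        have : Tendsto (fun N : ℕ => (1 : ℝ) / (N : ℝ)) atTop (𝓝 0) :=
          tendsto_one_div_atTop_nhds_zero_nat
        have h2 := (this.mul_const (B ^ 2)).const_mul (n : ℝ)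
        simpa using h2
      have e2 : ∀ᶠ N : ℕ in atTop, (1 : ℝ) / (N : ℝ) < δ :=
        (tendsto_one_div_atTop_nhds_zero_nat (𝕜 := ℝ)).eventually_lt_const hδ
      have e3 : ∀ᶠ N : ℕ in atTop, (n : ℝ) * (1 / (N : ℝ) * B ^ 2) < ε / 2 :=
        e1.eventually_lt_const (by linarith)
      filter_upwards [e2, e3] with N h2 h3
      rintro g ⟨hN, hg⟩
      have := upa_ev hf hB hN hg hη1 (fun x hx z hz hzx => by
        rw [← dist_eq_norm]
        apply le_of_lt
        apply huc z hz x hx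
        rw [dist_eq_norm]
        exact lt_of_le_of_lt hzx h2)
      have h4 : (n : ℝ) * (1 / N * B ^ 2 + 2 * ((2 * B + 1) * η)) =
        (n : ℝ) * (1 / (N : ℝ) * B ^ 2) + (n : ℝ) * (2 * ((2 * B + 1) * η)) := by ring
      rw [h4] at this
      linarith)
  refine ⟨err, B ^ 2, herr, by positivity, ?_⟩
  intro N g hN hg _
  refine ⟨?_, ?_⟩
  · have := herr2 N g ⟨hN, hg⟩
    linarith
  · intro a b hab
    exact upa_c hf hB hN hg a b hab

end Pool.Agent.R364.OP
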